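import Pool.Agent.Q42.SH.Bin

/-!
# Chowla's conjecture for binary forms `L(U, V) g(U, V)`: all but few linear factors `L` with small
coefficients, the cofactor `g` being arbitrary

Let `g` be any binary form, or any function on `ℤ²`.  For all linear forms `L` with coefficients of size
at most `(log X)^B`, up to at most `(1 + ε) / δ²` of them (counted up to proportionality), the sums of
`λ(L(P) g(P))` over the points `P` of any translated lattice in any rectangle in `[-X, X]²` are at most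
`δ (2 X + 1)²`.  Here `δ` may be a negative power of `log X`.  The functions `λ(L(P))` for different `L` are
asymptotically orthogonal on all rectangles, and Bessel's inequality applies to every cofactor.
-/

set_option autoImplicit false

open Finset Filter

namespace Pool.Agent.Results.MP_d639b3_nt.AllButFewLinearForms

/-- the Liouville function on the integers, `λ(0) = 0` -/
noncomputable def liouville (m : ℤ) : ℂ := if m = 0 then 0 else (-1) ^ ArithmeticFunction.cardFactors m.natAbs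

/-- `e(x) = exp(2 π i x)` -/
noncomputable def e (x : ℝ) : ℂ := Complex.exp (2 * Real.pi * x * Complex.I)

/-- the integer points of `[-X, X]²` -/
noncomputable def square (X : ℕ) : Finset (ℤ × ℤ) := Icc (-(X : ℤ)) X ×ˢ Icc (-(X : ℤ)) X

/-- the integer points of the rectangle `[R₁, R₂] × [R₃, R₄]` -/
noncomputable def rectangle (R : (ℤ × ℤ) × (ℤ × ℤ)) : Finset (ℤ × ℤ) := Icc R.1.1 R.1.2 ×ˢ Icc R.2.1 R.2.2

/-- `F` is a set of linear forms `L = (a, b)`, `L(u, v) = a u + b v`, with coefficients of absolute value at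
most `q`, no two of which are proportional -/
def LinearForms (F : Finset (ℤ × ℤ)) (q : ℕ) : Prop :=
  (∀ L ∈ F, |L.1| ≤ q ∧ |L.2| ≤ q) ∧ ∀ L ∈ F, ∀ L' ∈ F, L ≠ L' → L.1 * L'.2 ≠ L'.1 * L.2

open Classical in
/-- the sum of `λ(L(P) g(P)) e(α u + β v)` over the points `P = (u, v)` of the rectangle `R` in `[-X, X]²` with
`u ≡ a`, `v ≡ b` modulo `N` -/
noncomputable def formSum (L : ℤ × ℤ) (g : ℤ × ℤ → ℤ) (N a b : ℤ) (X : ℕ) (R : (ℤ × ℤ) × (ℤ × ℤ)) (α β : ℝ) :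
    ℂ :=
  ∑ P ∈ (square X ∩ rectangle R).filter (fun P => P.1 ≡ a [ZMOD N] ∧ P.2 ≡ b [ZMOD N]),
    liouville ((L.1 * P.1 + L.2 * P.2) * g P) * e (α * P.1 + β * P.2)

lemma liou_mul (x y : ℤ) : liouville (x * y) = liouville x * liouville y := by
  unfold liouville
  by_cases hx : x = 0
  · simp [hx]
  by_cases hy : y = 0
  · simp [hy]
  rw [if_neg hx, if_neg hy, if_neg (mul_ne_zero hx hy), Int.natAbs_mul,
    ArithmeticFunction.cardFactors_mul (Int.natAbs_ne_zero.2 hx) (Int.natAbs_ne_zero.2 hy), pow_add]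

open Classical in
/-- **Theorem.** For all `B` and `ε > 0` there is `X₀` such that for all `X ≥ X₀`, all `q ≤ (log X)^B` and all
sets `F` of pairwise non-proportional linear forms with integer coefficients in `[-q, q]`:
1. for all functions `G` on `ℤ²`, all rectangles `R_L` and all real `α_L`, `β_L`
   `∑_{L ∈ F} |∑_{P ∈ R_L} λ(L(P)) G(P) e(α_L u + β_L v)|² ≤ (1 + ε) (2 X + 1)² ∑_P |G(P)|²`, the sums being over
   points `P = (u, v)` of `[-X, X]²`;
2. for every function `g` on `ℤ²` with integer values (for instance a binary form of any degree), every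
   translated lattice `P ≡ (a, b)` modulo `N` and every `δ > 0`, at most `(1 + ε) / δ²` of the `L ∈ F` are such
   that for some rectangle and some real `α`, `β` the sum of `λ(L(P) g(P)) e(α u + β v)` over the points `P` of the
   lattice in the rectangle and in `[-X, X]²` is at least `δ (2 X + 1)²` in absolute value. -/
theorem result (B : ℕ) (ε : ℝ) (hε : 0 < ε) : ∃ X₀ : ℕ, ∀ X : ℕ, X₀ ≤ X → ∀ q : ℕ, 1 ≤ q →
    (q : ℝ) ≤ Real.log X ^ B → ∀ F : Finset (ℤ × ℤ), LinearForms F q →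
      (∀ (R : ℤ × ℤ → (ℤ × ℤ) × (ℤ × ℤ)) (α β : ℤ × ℤ → ℝ) (G : ℤ × ℤ → ℂ),
        ∑ L ∈ F, ‖∑ P ∈ square X ∩ rectangle (R L), liouville (L.1 * P.1 + L.2 * P.2) * G P *
          e (α L * P.1 + β L * P.2)‖ ^ 2 ≤ (1 + ε) * (2 * X + 1) ^ 2 * ∑ P ∈ square X, ‖G P‖ ^ 2) ∧
      ∀ (g : ℤ × ℤ → ℤ) (N a b : ℤ) (δ : ℝ), 0 < δ →
        ((F.filter (fun L => ∃ (R : (ℤ × ℤ) × (ℤ × ℤ)) (α β : ℝ),
          δ * (2 * X + 1) ^ 2 ≤ ‖formSum L g N a b X R α β‖)).card : ℝ) ≤ (1 + ε) / δ ^ 2 := by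
  obtain ⟨X₀, h1⟩ := Pool.Agent.Q42.SH.Bin.bes_forms B ε hε
  refine ⟨X₀, fun X hX q hq hqB F hF => ?_⟩
  have h2 : ∀ (R : ℤ × ℤ → (ℤ × ℤ) × (ℤ × ℤ)) (α β : ℤ × ℤ → ℝ) (G : ℤ × ℤ → ℂ),
        ∑ L ∈ F, ‖∑ P ∈ square X ∩ rectangle (R L), liouville (L.1 * P.1 + L.2 * P.2) * G P *
          e (α L * P.1 + β L * P.2)‖ ^ 2 ≤ (1 + ε) * (2 * X + 1) ^ 2 * ∑ P ∈ square X, ‖G P‖ ^ 2 := by
    intro R α β G
    have h3 := h1 X hX q hq hqB F hF.1 hF.2 R α β G
    refine le_trans (le_of_eq ?_) h3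
    congr
  refine ⟨h2, fun g N a b δ hδ => ?_⟩
  have hpick : ∀ L : ℤ × ℤ, ∃ x : ((ℤ × ℤ) × (ℤ × ℤ)) × (ℝ × ℝ),
      (∃ (R : (ℤ × ℤ) × (ℤ × ℤ)) (α β : ℝ), δ * (2 * X + 1) ^ 2 ≤ ‖formSum L g N a b X R α β‖) →
        δ * (2 * X + 1) ^ 2 ≤ ‖formSum L g N a b X x.1 x.2.1 x.2.2‖ := by
    intro L
    by_cases h : ∃ (R : (ℤ × ℤ) × (ℤ × ℤ)) (α β : ℝ), δ * (2 * X + 1) ^ 2 ≤ ‖formSum L g N a b X R α β‖
    · obtain ⟨R, α, β, h3⟩ := h
      exact ⟨(R, (α, β)), fun _ => h3⟩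
    · exact ⟨((((0, 0), (0, 0)), (0, 0))), fun hh => absurd hh h⟩
  choose x hx using hpick
  have h3 := h2 (fun L => (x L).1) (fun L => (x L).2.1) (fun L => (x L).2.2)
    (fun P => if P.1 ≡ a [ZMOD N] ∧ P.2 ≡ b [ZMOD N] then liouville (g P) else 0)
  have e1 : ∀ L ∈ F, ‖∑ P ∈ square X ∩ rectangle (x L).1, liouville (L.1 * P.1 + L.2 * P.2) *
      (if P.1 ≡ a [ZMOD N] ∧ P.2 ≡ b [ZMOD N] then liouville (g P) else 0) *
        e ((x L).2.1 * P.1 + (x L).2.2 * P.2)‖ ^ 2 = ‖formSum L g N a b X (x L).1 (x L).2.1 (x L).2.2‖ ^ 2 := by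
    intro L _
    unfold formSum
    rw [sum_filter]
    congr 2
    refine sum_congr rfl fun P _ => ?_
    split_ifs
    · rw [liou_mul]
    · rw [mul_zero, zero_mul]
  rw [sum_congr rfl e1] at h3
  have hle : ∀ m : ℤ, ‖liouville m‖ ≤ 1 := by
    intro m
    unfold liouville
    split_ifs <;> simp
  have h4 : ∑ P ∈ square X, ‖(if P.1 ≡ a [ZMOD N] ∧ P.2 ≡ b [ZMOD N] then liouville (g P) else (0 : ℂ))‖ ^ 2 ≤
      (2 * X + 1) ^ 2 := by
    have c1 : ∀ P ∈ square X,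
        ‖(if P.1 ≡ a [ZMOD N] ∧ P.2 ≡ b [ZMOD N] then liouville (g P) else (0 : ℂ))‖ ^ 2 ≤ 1 := by
      intro P _
      split_ifs
      · exact pow_le_one₀ (norm_nonneg _) (hle _)
      · simp
    refine (sum_le_sum c1).trans (le_of_eq ?_)
    rw [sum_const, nsmul_eq_mul, mul_one]
    exact Pool.Agent.Q42.SH.Bin.box_card X
  have h5 := Pool.Agent.Q42.SH.few F (fun L => ‖formSum L g N a b X (x L).1 (x L).2.1 (x L).2.2‖)
    ((1 + ε) * (2 * X + 1) ^ 2 * (2 * X + 1) ^ 2) (δ * (2 * X + 1) ^ 2) (by positivity)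
    (h3.trans (mul_le_mul_of_nonneg_left h4 (by positivity)))
  have h6 : ((F.filter (fun L => ∃ (R : (ℤ × ℤ) × (ℤ × ℤ)) (α β : ℝ),
      δ * (2 * X + 1) ^ 2 ≤ ‖formSum L g N a b X R α β‖)).card : ℝ) ≤
      (1 + ε) * (2 * X + 1) ^ 2 * (2 * X + 1) ^ 2 / (δ * (2 * X + 1) ^ 2) ^ 2 := by
    refine le_trans (Nat.cast_le.2 (card_le_card fun L hL => ?_)) h5
    rw [mem_filter] at hL ⊢
    exact ⟨hL.1, hx L hL.2⟩
  refine h6.trans (le_of_eq ?_)
  have hX0 : (0 : ℝ) < 2 * X + 1 := by positivity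
  field_simp

end Pool.Agent.Results.MP_d639b3_nt.AllButFewLinearForms
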