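import Pool.Agent.Q56.TF.PSW2

/-!
# Liouville sums over polynomial values `g(v) (a_1 v + b_1) ⋯ (a_r v + b_r)`: an arbitrary factor `g`, and linear factors with
ALL constants `(b_1, ..., b_r)` in boxes of power side around almost all tuples of members of real sequences

From the starting files: the theorem on families of integers with a power saving (`Pool.Agent.TH823.PS.most_good`) and
the energy of polynomial values.
From Mathlib: `ArithmeticFunction.cardFactors`: the number `Ω(n)` of prime factors with multiplicity;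
`a ≡ b [ZMOD q]`: congruence of integers; `Finset.Icc 1 X`: the integers `n` with `1 ≤ n ≤ X`;
`Fintype.piFinset S`: the tuples `m` with `m i ∈ S i` for all `i`; `Polynomial ℤ`, `P.eval m`.
-/

set_option autoImplicit false

namespace Pool.Agent.Results.MP_d639b3_nt.LinearFactorBoxes

open Finset

/-- Liouville's function on the integers: `(-1) ^ Ω(|m|)`, and `0` at `0` (as if `0` were omitted). -/
def lam (m : ℤ) : ℤ := if m = 0 then 0 else (-1) ^ ArithmeticFunction.cardFactors m.natAbs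

open Classical in
/-- The number of the elements of the finite set `S` with the property `E`. -/
noncomputable def num {α : Type} (S : Finset α) (E : α → Prop) : ℝ := ((S.filter E).card : ℝ)

open Classical in
/-- The property `P` holds at most scales: the set of the positive integers `N` with the property `P` has upper
logarithmic density at least `1 - ε`. Precisely, for arbitrarily large `R` the sum of `1 / N` over the `N ≤ R`
without the property is at most `ε log R`. -/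
def MostScales (ε : ℝ) (P : ℕ → Prop) : Prop :=
  ∀ R₀ : ℕ, ∃ R : ℕ, R₀ ≤ R ∧ ∑ N ∈ (Icc 1 R).filter (fun N => ¬ P N), (1 : ℝ) / N ≤ ε * Real.log R

/-- The sum of `λ (F v)` over the `v` with `|v| ≤ X` and `v ≡ ρ mod q`. -/
noncomputable def progSum (F : ℤ → ℤ) (q : ℕ) (ρ : ℤ) (X : ℕ) : ℤ :=
  ∑ v ∈ (Icc (-(X : ℤ)) X).filter (fun v => v ≡ ρ [ZMOD q]), lam (F v)

/-- The tuple `b` is good for `g` at the scale `N`: for all `a i ≤ A`, all the sets `I ≠ ∅` of indices, all progressions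
`ρ mod q` with `q ≤ A` and all `X ≤ N`, the sum of `λ (g v * ∏ (a i * v + b i))`, the product over `i ∈ I`, over the
`v` in the progression with `|v| ≤ X` is at most `ε N` in absolute value. -/
def Good {r : ℕ} (A : ℕ) (ε : ℝ) (N : ℕ) (g : ℤ → ℤ) (b : Fin r → ℤ) : Prop :=
  ∀ a : Fin r → ℕ, (∀ i, 1 ≤ a i ∧ a i ≤ A) → ∀ I : Finset (Fin r), I.Nonempty → ∀ q : ℕ, 1 ≤ q → q ≤ A → ∀ ρ : ℤ,
    ∀ X : ℕ, X ≤ N → |(progSum (fun v => g v * ∏ i ∈ I, (a i * v + b i)) q ρ X : ℝ)| ≤ ε * N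

/-- The sequences: either `f m = κ P m` for a nonconstant polynomial `P` with integer coefficients, of degree `c`, and a
real number `κ ≠ 0`; or `f m = ∑ w_y m ^ y`, a sum over a finite set of real exponents, if the largest exponent `c` is
greater than `1` and not an integer and `w_c ≠ 0` (for instance `f m = m ^ c`). -/
def RealSeq (f : ℕ → ℝ) (c : ℝ) : Prop :=
  (∃ (P : Polynomial ℤ) (κ : ℝ), 1 ≤ P.natDegree ∧ κ ≠ 0 ∧ c = P.natDegree ∧
    f = fun m : ℕ => κ * ((P.eval (m : ℤ) : ℤ) : ℝ)) ∨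
  (∃ (F : Finset ℝ) (w : ℝ → ℝ), c ∈ F ∧ (∀ y ∈ F, y ≤ c) ∧ w c ≠ 0 ∧ 1 < c ∧ (∀ k : ℕ, c ≠ k) ∧
    f = fun m : ℕ => ∑ y ∈ F, w y * (m : ℝ) ^ y)

/-- At the scale `N`: for every function `g : ℤ → ℤ` (e.g. every polynomial), all lengths `x i` with
`N ^ (1 - δ) ≤ (x i) ^ (c i) ≤ A N` and all translations `β i` in `[-A N, A N]`: for all the tuples `m` with `m i ≤ x i`,
except for at most `x 1 ⋯ x r / N ^ δ` of them, ALL the tuples `b` of integers with `|b i - (β i + f i (m i))| ≤ N ^ δ`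
for all `i` are good for `g`. -/
def Boxes (A : ℕ) {r : ℕ} (f : Fin r → ℕ → ℝ) (c : Fin r → ℝ) (ε δ : ℝ) (N : ℕ) : Prop :=
  ∀ g : ℤ → ℤ, ∀ x : Fin r → ℕ, (∀ i, (x i : ℝ) ^ (c i) ≤ A * N ∧ (N : ℝ) ^ (1 - δ) ≤ (x i : ℝ) ^ (c i)) →
    ∀ β : Fin r → ℝ, (∀ i, |β i| ≤ A * N) →
      num (Fintype.piFinset fun i => Icc 1 (x i)) (fun m => ¬ ∀ b : Fin r → ℤ,
        (∀ i, |(b i : ℝ) - (β i + f i (m i))| ≤ (N : ℝ) ^ δ) → Good A ε N g b) ≤
        (∏ i, (x i : ℝ)) * (N : ℝ) ^ (-δ)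

lemma RealSeq.base {f : ℕ → ℝ} {c : ℝ} (h : RealSeq f c) : Pool.Agent.Q56.TF.Base f c ∧ 1 ≤ c := by
  rcases h with ⟨P, κ, hd, hκ, rfl, rfl⟩ | ⟨F, w, hcF, hmax, hwc, hc, hcn, rfl⟩
  · exact ⟨(Pool.Agent.Q56.TF.base_poly P hd).dil hκ, by exact_mod_cast hd⟩
  · exact ⟨Pool.Agent.Q56.TF.base_gp F w c hcF hmax hwc hc hcn, hc.le⟩

lemma most_of {ε : ℝ} {P P' : ℕ → Prop} (h : Pool.Agent.TH823.PS.Most ε P) (hPP : ∀ N, P N → P' N) :
    MostScales ε P' := by
  classical
  have h' : MostScales ε P := h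
  intro R₀
  obtain ⟨R, hR, h1⟩ := h' R₀
  refine ⟨R, hR, le_trans ?_ h1⟩
  apply sum_le_sum_of_subset_of_nonneg
  · intro N hN
    simp only [mem_filter] at hN ⊢
    exact ⟨hN.1, fun h2 => hN.2 (hPP N h2)⟩
  · intro _ _ _; positivity

lemma num_zero {α : Type} {S : Finset α} {E : α → Prop} (h : ∀ m ∈ S, ¬ E m) : num S E = 0 := by
  classical
  unfold num
  rw [filter_false_of_mem h]
  simp

lemma num_le_sum {α β : Type} {S : Finset α} {E : α → Prop} (Es : Finset β) {F : β → α → Prop}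
    (h : ∀ a ∈ S, E a → ∃ e ∈ Es, F e a) : num S E ≤ ∑ e ∈ Es, num S (F e) := by
  classical
  unfold num
  rw [← Nat.cast_sum]
  apply Nat.cast_le.2
  refine le_trans ?_ card_biUnion_le
  apply card_le_card
  intro a ha
  rw [mem_filter] at ha
  obtain ⟨e, he, hF⟩ := h a ha.1 ha.2
  rw [mem_biUnion]
  exact ⟨e, he, mem_filter.2 ⟨ha.1, hF⟩⟩

lemma lam_mul (m n : ℤ) : lam (m * n) = lam m * lam n := by
  unfold lam
  by_cases hm : m = 0
  · simp [hm]
  by_cases hn : n = 0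
  · simp [hn]
  rw [if_neg (mul_ne_zero hm hn), if_neg hm, if_neg hn, Int.natAbs_mul,
    ArithmeticFunction.cardFactors_mul (Int.natAbs_ne_zero.2 hm) (Int.natAbs_ne_zero.2 hn), pow_add]

lemma lam_one : lam 1 = 1 := by
  unfold lam
  simp

lemma lam_prod {α : Type} (J : Finset α) (F : α → ℤ) : lam (∏ i ∈ J, F i) = ∏ i ∈ J, lam (F i) := by
  classical
  induction J using Finset.induction_on with
  | empty => simp [lam_one]
  | insert i s hi ih => rw [prod_insert hi, prod_insert hi, lam_mul, ih]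

lemma lam_abs (m : ℤ) : |lam m| ≤ 1 := by
  unfold lam
  split_ifs
  · simp
  · rw [abs_pow]; simp

lemma lam_eq (m : ℤ) : (lam m : ℂ) = Pool.Agent.TH823.PS.evI Pool.Agent.H373R2.T7.liR m := by
  unfold lam Pool.Agent.TH823.PS.evI Pool.Agent.H373R2.T7.exI Pool.Agent.H373R2.T7.liR
  rcases lt_trichotomy m 0 with h | h | h
  · rw [if_neg h.ne, if_neg (by omega), if_pos (by omega), zero_add]
    have : m.natAbs = (-m).toNat := by omega
    rw [this]
    push_cast
    rfl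
  · subst h
    simp
  · rw [if_neg h.ne', if_pos (by omega), if_neg (by omega), add_zero]
    have : m.natAbs = m.toNat := by omega
    rw [this]
    push_cast
    rfl

/-- the summand with one entry distinguished -/
lemma summand {k : ℕ} (i₀ : Fin (k + 1)) (g v : ℤ) (a : Fin (k + 1) → ℕ) (b : Fin (k + 1) → ℤ)
    (I : Finset (Fin (k + 1))) (hI : i₀ ∈ I) :
    lam (g * ∏ i ∈ I, (a i * v + b i)) = (lam g *
      ∏ i ∈ (univ : Finset (Fin k)).filter (fun i => i₀.succAbove i ∈ I), lam (a (i₀.succAbove i) * v +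
        b (i₀.succAbove i))) * lam (a i₀ * v + b i₀) := by
  classical
  have h1 : ∀ (F : Fin (k + 1) → ℤ), ∏ i ∈ I, F i =
      F i₀ * ∏ i ∈ (univ : Finset (Fin k)).filter (fun i => i₀.succAbove i ∈ I), F (i₀.succAbove i) := by
    intro F
    have h2 := Fin.prod_univ_succAbove (fun i => if i ∈ I then F i else 1) i₀
    rw [Finset.prod_ite_mem, univ_inter, if_pos hI] at h2
    rw [prod_filter, h2]
  rw [lam_mul, lam_prod, h1 (fun i => lam (a i * v + b i))]
  ring

/-- one choice of `a`, `I`, `q`, `ρ` -/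
lemma boxes_one {A k : ℕ} {f : Fin (k + 1) → ℕ → ℝ} {c : Fin (k + 1) → ℝ} {ε δ δ' : ℝ} {N : ℕ} (hN : 1 ≤ N)
    (hδ0 : 0 ≤ δ') (hδ : δ' ≤ δ)
    (h : ∀ i, Pool.Agent.Q56.TF.WG Pool.Agent.H373R2.T7.liR (3 * A) (ε / 4) δ (f i) (c i) N)
    (h' : ∀ i, Pool.Agent.Q56.TF.WG Pool.Agent.H373R2.T7.liR (3 * A) (ε / 4) δ (fun m => (-1) * f i m) (c i) N)
    (g : ℤ → ℤ) (x : Fin (k + 1) → ℕ)
    (hx : ∀ i, (x i : ℝ) ^ (c i) ≤ A * N ∧ (N : ℝ) ^ (1 - δ) ≤ (x i : ℝ) ^ (c i)) (β : Fin (k + 1) → ℝ)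
    (hβ : ∀ i, |β i| ≤ A * N) (a : Fin (k + 1) → ℕ) (ha : ∀ i, 1 ≤ a i ∧ a i ≤ A)
    (I : Finset (Fin (k + 1))) (hI : I.Nonempty) (q ρ : ℕ) :
    num (Fintype.piFinset fun i => Icc 1 (x i)) (fun m => ∃ b : Fin (k + 1) → ℤ,
      (∀ i, |(b i : ℝ) - (β i + f i (m i))| ≤ (N : ℝ) ^ δ') ∧ ∃ X : ℕ, X ≤ N ∧
      ε * N < |(progSum (fun v => g v * ∏ i ∈ I, (a i * v + b i)) q ρ X : ℝ)|) ≤
      2 * ((∏ i, (x i : ℝ)) * ((7 : ℝ) ^ k * (N : ℝ) ^ (k * δ') * (N : ℝ) ^ (-δ))) := by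
  classical
  obtain ⟨i₀, hi⟩ := hI
  refine le_trans (le_of_eq (by unfold num; congr!)) (Pool.Agent.Q56.TF.tuples_two hN hδ0 hδ (h i₀) (h' i₀) x (hx i₀) β
    (hβ i₀) (ha i₀).1 (ha i₀).2
    (fun b v => if v ≡ (ρ : ℤ) [ZMOD q] then ((lam (g v) *
      ∏ i ∈ (univ : Finset (Fin k)).filter (fun i => i₀.succAbove i ∈ I), lam (a (i₀.succAbove i) * v + b i) : ℤ) : ℂ)
      else 0) ?_
    (fun m => ∃ b : Fin (k + 1) → ℤ, (∀ i, |(b i : ℝ) - (β i + f i (m i))| ≤ (N : ℝ) ^ δ') ∧ ∃ X : ℕ, X ≤ N ∧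
      ε * N < |(progSum (fun v => g v * ∏ i ∈ I, (a i * v + b i)) q ρ X : ℝ)|) ?_)
  · intro b v
    split_ifs
    · rw [Complex.norm_intCast]
      have h1 : |lam (g v) *
        ∏ i ∈ (univ : Finset (Fin k)).filter (fun i => i₀.succAbove i ∈ I), lam (a (i₀.succAbove i) * v + b i)| ≤ 1 := by
        rw [abs_mul, abs_prod]
        exact mul_le_one₀ (lam_abs _) (prod_nonneg fun _ _ => abs_nonneg _)
          (prod_le_one (fun _ _ => abs_nonneg _) fun i _ => lam_abs _)
      exact_mod_cast h1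
    · simp
  · rintro m ⟨b, hb, X, hX, h1⟩
    refine ⟨b, hb, X, hX, ?_⟩
    refine lt_of_lt_of_eq h1 ?_
    have h2 : ∑ v ∈ Icc (-(X : ℤ)) X, (if v ≡ (ρ : ℤ) [ZMOD q] then ((lam (g v) *
      ∏ i ∈ (univ : Finset (Fin k)).filter (fun i => i₀.succAbove i ∈ I), lam (a (i₀.succAbove i) * v +
        i₀.removeNth b i) : ℤ) : ℂ) else 0) * Pool.Agent.TH823.PS.evI Pool.Agent.H373R2.T7.liR (a i₀ * v + b i₀) =
        ((progSum (fun v => g v * ∏ i ∈ I, (a i * v + b i)) q ρ X : ℤ) : ℂ) := by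
      unfold progSum
      rw [sum_filter, Int.cast_sum]
      apply sum_congr rfl
      intro v _
      rw [← lam_eq]
      split_ifs
      · rw [summand i₀ (g v) v a b I hi]
        unfold Fin.removeNth
        push_cast
        ring
      · simp
    rw [h2, Complex.norm_intCast]

/-- Let `f 1, ..., f r` be real sequences (real multiples of nonconstant integer polynomials, or generalised polynomials
whose largest exponent is greater than `1` and not an integer, e.g. `m ^ c`), `A ≥ 1` and `ε > 0`. There is a `δ > 0`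
such that at most scales `N`, that is on a set of `N` of upper logarithmic density at least `1 - ε`, the following holds
for every polynomial (even every function) `g : ℤ → ℤ`, all `x i` with `N ^ (1 - δ) ≤ (x i) ^ (c i) ≤ A N` and all real
`β i` in `[-A N, A N]`: for all the tuples `m` with `1 ≤ m i ≤ x i`, with at most `x 1 ⋯ x r / N ^ δ` exceptions, ALL the
tuples `b` of integers with `|b i - (β i + f i (m i))| ≤ N ^ δ` satisfy
`|∑ λ (g v * ∏ i ∈ I, (a i * v + b i))| ≤ ε N`, the sum over the `v ≡ ρ mod q` with `|v| ≤ X`, for all `a i ≤ A`, all sets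
`I ≠ ∅` of indices, all `q ≤ A`, `ρ` and `X ≤ N`. -/
theorem result (A r : ℕ) (f : Fin r → ℕ → ℝ) (c : Fin r → ℝ) (hf : ∀ i, RealSeq (f i) (c i)) (ε : ℝ) (hε : 0 < ε) :
    ∃ δ : ℝ, 0 < δ ∧ MostScales ε (Boxes A f c ε δ) := by
  classical
  rcases r with _ | k
  · refine ⟨1, one_pos, most_of (P := fun _ => True) (fun R₀ => ⟨R₀ + 1, by omega, ?_⟩) fun N _ => ?_⟩
    · simp only [not_true_eq_false, filter_false, sum_empty]
      have := Real.log_natCast_nonneg (R₀ + 1)
      positivity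
    · intro g x _ β _
      rw [num_zero]
      · positivity
      · intro m _ hcon
        apply hcon
        intro b _ a _ I hI
        obtain ⟨i, _⟩ := hI
        exact i.elim0
  · obtain ⟨δ, hδ, hδ1, h⟩ := Pool.Agent.Q56.TF.most_windows Pool.Agent.TH823.PS.nice_liR (3 * A)
      (fun (j : Bool × Fin (k + 1)) m => if j.1 then f j.2 m else (-1) * f j.2 m) (fun j => c j.2)
      (fun j => by
        rcases j with ⟨_ | _, i⟩
        · simpa using (hf i).base.1.dil (α := -1) (by norm_num)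
        · simpa using (hf i).base.1) (fun j => (hf j.2).base.2) (ε := min ε (ε / 4)) (by positivity)
    have hmin : min ε (ε / 4) = ε / 4 := min_eq_right (by linarith)
    rw [hmin] at h
    obtain ⟨T, hT⟩ : ∃ T : ℕ, T = (A ^ (k + 1)) * (2 ^ (k + 1) * (A * A)) := ⟨_, rfl⟩
    have hk0 : (0 : ℝ) < (k : ℝ) + 1 := by positivity
    obtain ⟨δ', hδ'⟩ : ∃ δ' : ℝ, δ' = δ / (4 * (k + 1)) := ⟨_, rfl⟩
    have hδ'0 : 0 < δ' := by rw [hδ']; positivity
    have hk4 : (4 * (k + 1) : ℝ) * δ' = δ := by rw [hδ']; field_simp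
    have hkk : (0 : ℝ) ≤ k * δ' := by positivity
    have hδ4 : δ' ≤ δ / 4 := by nlinarith
    have hkδ : (k : ℝ) * δ' ≤ δ / 4 := by nlinarith
    obtain ⟨N₁, hN₁⟩ := Pool.Agent.Q56.TF.ev_rpow (δ / 4) (T * 2 * 7 ^ k) (by positivity)
    have h' : Pool.Agent.TH823.PS.Most ε (fun N => N₁ + 1 ≤ N ∧ ∀ j : Bool × Fin (k + 1),
        Pool.Agent.Q56.TF.WG Pool.Agent.H373R2.T7.liR (3 * A) (ε / 4) δ
          (fun m => if j.1 then f j.2 m else (-1) * f j.2 m) (c j.2) N) := by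
      intro R₀
      obtain ⟨R, hR, h1⟩ := h (N₁ + 1) (max R₀ 1)
      refine ⟨R, le_of_max_le_left hR, h1.trans ?_⟩
      have : 0 ≤ Real.log R := Real.log_natCast_nonneg R
      nlinarith
    refine ⟨δ', hδ'0, most_of h' fun N h2 => ?_⟩
    obtain ⟨hNN, hG⟩ := h2
    have hN0 : (0 : ℝ) < N := by exact_mod_cast (by omega : 0 < N)
    have hN1 : (1 : ℝ) ≤ N := by exact_mod_cast (by omega : 1 ≤ N)
    have hG1 : ∀ i, Pool.Agent.Q56.TF.WG Pool.Agent.H373R2.T7.liR (3 * A) (ε / 4) δ (f i) (c i) N := fun i => by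
      simpa using hG (true, i)
    have hG2 : ∀ i, Pool.Agent.Q56.TF.WG Pool.Agent.H373R2.T7.liR (3 * A) (ε / 4) δ (fun m => (-1) * f i m) (c i) N :=
      fun i => by simpa using hG (false, i)
    intro g x hx β hβ
    have hx' : ∀ i, (x i : ℝ) ^ (c i) ≤ A * N ∧ (N : ℝ) ^ (1 - δ) ≤ (x i : ℝ) ^ (c i) := fun i =>
      ⟨(hx i).1, (Real.rpow_le_rpow_of_exponent_le hN1 (by linarith)).trans (hx i).2⟩
    have h3 : num (Fintype.piFinset fun i => Icc 1 (x i))
        (fun m => ¬ ∀ b : Fin (k + 1) → ℤ, (∀ i, |(b i : ℝ) - (β i + f i (m i))| ≤ (N : ℝ) ^ δ') → Good A ε N g b) ≤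
        ∑ e ∈ (Fintype.piFinset fun _ : Fin (k + 1) => Icc 1 A) ×ˢ
          (((univ : Finset (Finset (Fin (k + 1)))).filter (fun I => I.Nonempty)) ×ˢ ((Icc 1 A) ×ˢ (range A))),
        num (Fintype.piFinset fun i => Icc 1 (x i)) (fun m => ∃ b : Fin (k + 1) → ℤ,
          (∀ i, |(b i : ℝ) - (β i + f i (m i))| ≤ (N : ℝ) ^ δ') ∧ ∃ X : ℕ, X ≤ N ∧
          ε * N < |(progSum (fun v => g v * ∏ i ∈ e.2.1, (e.1 i * v + b i)) e.2.2.1 e.2.2.2 X : ℝ)|) := by
      apply num_le_sum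
      intro m _ hm
      by_contra hcon
      apply hm
      intro b hb a ha I hI q hq hqA ρ X hX
      by_contra h4
      apply hcon
      refine ⟨(a, I, q, (ρ % q).toNat), ?_, b, hb, X, hX, ?_⟩
      · rw [mem_product, mem_product, mem_product, mem_filter, mem_Icc, mem_range, Fintype.mem_piFinset]
        refine ⟨fun i => mem_Icc.2 (ha i), ⟨mem_univ _, hI⟩, ⟨hq, hqA⟩, ?_⟩
        have := Int.emod_lt_of_pos ρ (by exact_mod_cast hq : (0 : ℤ) < q)
        have := Int.emod_nonneg ρ (by exact_mod_cast (by omega : q ≠ 0) : (q : ℤ) ≠ 0)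
        simp only
        omega
      · have h7 : progSum (fun v => g v * ∏ i ∈ I, (a i * v + b i)) q ρ X =
            progSum (fun v => g v * ∏ i ∈ I, (a i * v + b i)) q ((ρ % q).toNat : ℕ) X := by
          unfold progSum
          apply sum_congr _ fun _ _ => rfl
          ext v
          rw [mem_filter, mem_filter]
          have h8 : (((ρ % q).toNat : ℕ) : ℤ) = ρ % q :=
            Int.toNat_of_nonneg (Int.emod_nonneg ρ (by exact_mod_cast (by omega : q ≠ 0)))
          rw [h8]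
          have h9 : ρ % q ≡ ρ [ZMOD q] := Int.mod_modEq ρ q
          exact ⟨fun h => ⟨h.1, h.2.trans h9.symm⟩, fun h => ⟨h.1, h.2.trans h9⟩⟩
        rw [h7] at h4
        exact lt_of_not_ge h4
    refine h3.trans ?_
    obtain ⟨Y, hY⟩ : ∃ Y : ℝ, Y = 2 * ((∏ i, (x i : ℝ)) * ((7 : ℝ) ^ k * (N : ℝ) ^ (k * δ') * (N : ℝ) ^ (-δ))) :=
      ⟨_, rfl⟩
    have hY0 : 0 ≤ Y := by rw [hY]; positivity
    refine (sum_le_sum (g := fun _ => Y) ?_).trans ?_
    · intro e he
      rw [mem_product, mem_product, mem_product, mem_filter, mem_Icc, mem_range, Fintype.mem_piFinset] at he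
      rw [hY]
      exact boxes_one (by omega) hδ'0.le (by linarith) hG1 hG2 g x hx' β hβ e.1 (fun i => mem_Icc.1 (he.1 i)) e.2.1
        he.2.1.2 e.2.2.1 e.2.2.2
    · rw [sum_const, nsmul_eq_mul]
      have h4 : ((((Fintype.piFinset fun _ : Fin (k + 1) => Icc 1 A) ×ˢ
          (((univ : Finset (Finset (Fin (k + 1)))).filter (fun I => I.Nonempty)) ×ˢ ((Icc 1 A) ×ˢ (range A)))).card
          : ℕ) : ℝ) ≤ T := by
        rw [hT]
        apply Nat.cast_le.2
        rw [card_product, card_product, card_product, Nat.card_Icc, Nat.add_sub_cancel, card_range,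
          Fintype.card_piFinset]
        simp only [Nat.card_Icc, Nat.add_sub_cancel, prod_const, card_univ, Fintype.card_fin]
        apply Nat.mul_le_mul_left
        apply Nat.mul_le_mul_right
        refine (card_filter_le _ _).trans ?_
        rw [card_univ, Fintype.card_finset, Fintype.card_fin]
      have h5 := hN₁ N (by omega)
      calc _ ≤ (T : ℝ) * Y := mul_le_mul_of_nonneg_right h4 hY0
        _ = (∏ i, (x i : ℝ)) * ((T * 2 * 7 ^ k) * (N : ℝ) ^ (k * δ') * (N : ℝ) ^ (-δ)) := by rw [hY]; ring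
        _ ≤ (∏ i, (x i : ℝ)) * ((N : ℝ) ^ (δ / 4) * (N : ℝ) ^ (δ / 4) * (N : ℝ) ^ (-δ)) := by
            apply mul_le_mul_of_nonneg_left _ (by positivity)
            apply mul_le_mul_of_nonneg_right _ (by positivity)
            exact mul_le_mul h5 (Real.rpow_le_rpow_of_exponent_le hN1 hkδ) (by positivity) (by positivity)
        _ ≤ _ := by
            apply mul_le_mul_of_nonneg_left _ (by positivity)
            rw [← Real.rpow_add hN0, ← Real.rpow_add hN0]
            exact Real.rpow_le_rpow_of_exponent_le hN1 (by linarith)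

end Pool.Agent.Results.MP_d639b3_nt.LinearFactorBoxes
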