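import Pool.Agent.Results.MP_d639b3_nt.PowerSavingLinearFactor
import Pool.Agent.Q331.DRS

/-!
# Chowla's conjecture in progressions for `g(T) (a T + b)`, for ALL `b` in windows of power length around the multiples of almost every real number, at most scales

Let `g : ℤ → ℤ` be any polynomial, or any function. At most scales `N`, for all real
`y ∈ [N ^ (1 - ϑ), 2 N ^ (1 - ϑ)]` outside a set of measure at most `N ^ (1 - ϑ - c)` and all `k ≤ N ^ ϑ` with at most
`N ^ (ϑ - c)` exceptions, ALL integers `b` with `||b| - k y| ≤ N ^ c` are such that the sums of `λ(g(v) (a v + b))`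
over all progressions `v ≡ r mod q`, `|v| ≤ X`, are at most `ε N`, for all `a, q ≤ A`, all `r` and all `X ≤ N`. Here
`ϑ < 1` is arbitrary.

From Mathlib: `ArithmeticFunction.cardFactors m`: the number of prime factors of `m` with multiplicity;
`Finset.Icc u v`: the integers `n` with `u ≤ n ≤ v`; `v ≡ r [ZMOD q]`: congruence modulo `q`; `volume`: the Lebesgue
measure. The bound for the number of the exceptional `b` is from the starting file `PowerSavingLinearFactor`; the count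
of the multiples of real numbers near a given set of integers is from the starting files (`Pool.Agent.H438R2.DL`) and
from `Pool.Agent.Q319.DR` (helper319).
-/

set_option autoImplicit false

namespace Pool.Agent.Results.MP_d639b3_nt.LinearFactorsAtRealMultiples

open Finset MeasureTheory

/-- Liouville's function on the integers: `(-1) ^ Ω(|m|)`, and `0` at `0` (as if `0` were omitted). -/
def lam (m : ℤ) : ℤ := if m = 0 then 0 else (-1) ^ ArithmeticFunction.cardFactors m.natAbs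

open Classical in
/-- The property `P` holds at most scales: for arbitrarily large `R` the sum of `1 / N` over the `N ≤ R` without the
property is at most `ε log R`. -/
def MostScales (ε : ℝ) (P : ℕ → Prop) : Prop :=
  ∀ R₀ : ℕ, ∃ R : ℕ, R₀ ≤ R ∧ ∑ N ∈ (Icc 1 R).filter (fun N => ¬ P N), (1 : ℝ) / N ≤ ε * Real.log R

/-- The sum of `λ (F v)` over the `v` with `|v| ≤ X` and `v ≡ r mod q`. -/
noncomputable def progSum (F : ℤ → ℤ) (q : ℕ) (r : ℤ) (X : ℕ) : ℤ :=
  ∑ v ∈ (Icc (-(X : ℤ)) X).filter (fun v => v ≡ r [ZMOD q]), lam (F v)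

/-- The number `b` is good for `g` at the scale `N`: for all `a ≤ A`, all progressions `r mod q` with `q ≤ A` and
all `X ≤ N`, the sum of `λ (g v * (a v + b))` over the `v` in the progression with `|v| ≤ X` is at most `ε N` in
absolute value. -/
def Good (A : ℕ) (ε : ℝ) (N : ℕ) (g : ℤ → ℤ) (b : ℤ) : Prop :=
  ∀ a : ℕ, 1 ≤ a → a ≤ A → ∀ q : ℕ, 1 ≤ q → q ≤ A → ∀ r : ℤ, ∀ X : ℕ, X ≤ N →
    |(progSum (fun v => g v * (a * v + b)) q r X : ℝ)| ≤ ε * N

open Classical in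
/-- The number of the `k` with `1 ≤ k ≤ K` for which not all natural numbers `q` at a distance of at most `w` from
`k y` have the property `Q`. -/
noncomputable def exceptions (K : ℝ) (y w : ℝ) (Q : ℕ → Prop) : ℕ :=
  ((Icc 1 ⌊K⌋₊).filter (fun k : ℕ => ∃ q : ℕ, |(q : ℝ) - k * y| ≤ w ∧ ¬ Q q)).card

/-- At the scale `N`: for every function `g : ℤ → ℤ` there is a set `E` of measure at most `N ^ (1 - ϑ - c)` such that
for all real `y` in `[N ^ (1 - ϑ), 2 N ^ (1 - ϑ)]` outside `E` and for all `k ≤ N ^ ϑ` with at most `N ^ (ϑ - c)`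
exceptions ALL integers `b = ± q` with `|q - k y| ≤ N ^ c` are good for `g`. -/
def Multiples (A : ℕ) (ε ϑ c : ℝ) (N : ℕ) : Prop :=
  ∀ g : ℤ → ℤ, ∃ E : Set ℝ, MeasurableSet E ∧ volume E ≤ ENNReal.ofReal ((N : ℝ) ^ (1 - ϑ - c)) ∧
    ∀ y : ℝ, (N : ℝ) ^ (1 - ϑ) ≤ y → y ≤ 2 * (N : ℝ) ^ (1 - ϑ) → y ∉ E →
      (exceptions ((N : ℝ) ^ ϑ) y ((N : ℝ) ^ c) (fun q => Good A ε N g q ∧ Good A ε N g (-q)) : ℝ) ≤ (N : ℝ) ^ (ϑ - c)

lemma most_of {ε : ℝ} {P P' : ℕ → Prop}
    (h : Pool.Agent.Results.MP_d639b3_nt.PowerSavingLinearFactor.MostScales ε P) (hPP : ∀ N, P N → P' N) :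
    MostScales ε P' := by
  classical
  intro R₀
  obtain ⟨R, hR, h1⟩ := h R₀
  refine ⟨R, hR, le_trans ?_ h1⟩
  apply sum_le_sum_of_subset_of_nonneg
  · intro N hN
    simp only [mem_filter] at hN ⊢
    exact ⟨hN.1, fun h2 => hN.2 (hPP N h2)⟩
  · intro _ _ _; positivity

open Classical in
lemma count {A : ℕ} (hA : 5 ≤ A) {ε δ : ℝ} {N : ℕ} (hN : 1 ≤ N) (hδ : 0 < δ)
    (h : Pool.Agent.Results.MP_d639b3_nt.PowerSavingLinearFactor.LinearFactor A Polynomial.X ε δ N) (g : ℤ → ℤ) :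
    (((Icc 1 (4 * N)).filter (fun q : ℕ => ¬ (Good A ε N g q ∧ Good A ε N g (-q)))).card : ℝ) ≤ 8 * (N : ℝ) ^ (1 - δ) := by
  have hN1 : (1 : ℝ) ≤ N := by exact_mod_cast hN
  have hN0 : (0 : ℝ) < N := by linarith
  have hpow : (4 * N : ℕ) * (N : ℝ) ^ (-δ) = 4 * (N : ℝ) ^ (1 - δ) := by
    push_cast
    rw [mul_assoc, Real.rpow_sub hN0, Real.rpow_one, Real.rpow_neg hN0.le, div_eq_mul_inv]
  have hside : (4 * N) ^ (Polynomial.X : Polynomial ℤ).natDegree ≤ A * N := by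
    rw [Polynomial.natDegree_X, pow_one]
    exact Nat.mul_le_mul_right N (by omega)
  have hside2 : (N : ℝ) ^ (1 - δ) ≤ ((4 * N : ℕ) : ℝ) ^ (Polynomial.X : Polynomial ℤ).natDegree := by
    rw [Polynomial.natDegree_X, pow_one]
    calc (N : ℝ) ^ (1 - δ) ≤ (N : ℝ) ^ (1 : ℝ) := Real.rpow_le_rpow_of_exponent_le hN1 (by linarith)
      _ = N := Real.rpow_one _
      _ ≤ _ := by push_cast; linarith
  have h1 := h g (4 * N) hside hside2 0 (by rw [abs_zero]; positivity)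
  have h2 := h g (4 * N) hside hside2 (-(4 * N + 1)) (by
    rw [abs_neg, abs_of_nonneg (by positivity)]
    have : (5 : ℤ) ≤ A := by exact_mod_cast hA
    have h3 : (1 : ℤ) ≤ N := by exact_mod_cast hN
    nlinarith)
  rw [hpow] at h1 h2
  unfold Pool.Agent.Results.MP_d639b3_nt.PowerSavingLinearFactor.num at h1 h2
  simp only [Polynomial.eval_X, zero_add] at h1 h2
  have hsub : (Icc 1 (4 * N)).filter (fun q : ℕ => ¬ (Good A ε N g q ∧ Good A ε N g (-q))) ⊆
      (Icc 1 (4 * N)).filter (fun m : ℕ => ¬ Good A ε N g m) ∪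
      ((Icc 1 (4 * N)).filter (fun m : ℕ => ¬ Good A ε N g (-(4 * N + 1) + m))).image (fun m => 4 * N + 1 - m) := by
    intro q hq
    rw [mem_filter, mem_Icc, not_and_or] at hq
    obtain ⟨⟨hq1, hq2⟩, hq3 | hq3⟩ := hq
    · exact mem_union_left _ (mem_filter.2 ⟨mem_Icc.2 ⟨hq1, hq2⟩, hq3⟩)
    · apply mem_union_right
      rw [mem_image]
      refine ⟨4 * N + 1 - q, mem_filter.2 ⟨mem_Icc.2 ⟨by omega, by omega⟩, ?_⟩, by omega⟩
      have e : (-(4 * (N : ℤ) + 1) + ((4 * N + 1 - q : ℕ) : ℤ)) = -q := by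
        push_cast [show q ≤ 4 * N + 1 by omega]
        ring
      rw [e]
      exact hq3
  have h3 : (((Icc 1 (4 * N)).filter (fun q : ℕ => ¬ (Good A ε N g q ∧ Good A ε N g (-q)))).card : ℝ) ≤
      (((Icc 1 (4 * N)).filter (fun m : ℕ => ¬ Good A ε N g m)).card : ℝ) +
      (((Icc 1 (4 * N)).filter (fun m : ℕ => ¬ Good A ε N g (-(4 * N + 1) + m))).card : ℝ) := by
    exact_mod_cast (card_le_card hsub).trans ((card_union_le _ _).trans (Nat.add_le_add_left card_image_le _))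
  have h4 : (((Icc 1 (4 * N)).filter (fun m : ℕ => ¬ Good A ε N g m)).card : ℝ) ≤ 4 * (N : ℝ) ^ (1 - δ) := h1
  have h5 : (((Icc 1 (4 * N)).filter (fun m : ℕ => ¬ Good A ε N g (-(4 * N + 1) + m))).card : ℝ) ≤
      4 * (N : ℝ) ^ (1 - δ) := h2
  linarith

/-- Let `A ≥ 1`, `ε > 0` and `0 < ϑ < 1`. There are `c > 0` and `N₀` such that at most scales `N ≥ N₀`, that is on a set
of `N` of upper logarithmic density at least `1 - ε`, the following holds for every polynomial (even every function)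
`g : ℤ → ℤ`. There is a set `E` of real numbers of measure at most `N ^ (1 - ϑ - c)` such that for all real `y` with
`N ^ (1 - ϑ) ≤ y ≤ 2 N ^ (1 - ϑ)` outside `E` and for all `k ≤ N ^ ϑ` with at most `N ^ (ϑ - c)` exceptions, ALL
integers `b` with `||b| - k y| ≤ N ^ c` satisfy `|∑ λ (g v * (a v + b))| ≤ ε N`, the sum over the `v ≡ r mod q` with
`|v| ≤ X`, for all `a ≤ A`, `q ≤ A`, `r` and `X ≤ N`. -/
theorem result (A : ℕ) (ε : ℝ) (hε : 0 < ε) (ϑ : ℝ) (hϑ : 0 < ϑ) (hϑ1 : ϑ < 1) :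
    ∃ c : ℝ, 0 < c ∧ ∃ N₀ : ℕ, MostScales ε (fun N => N₀ ≤ N → Multiples A ε ϑ c N) := by
  classical
  obtain ⟨δ, hδ, h⟩ := Pool.Agent.Results.MP_d639b3_nt.PowerSavingLinearFactor.result (max A 5) Polynomial.X
    (by rw [Polynomial.natDegree_X]) ε hε
  obtain ⟨c, hc, hc1, hc2, hmain⟩ := Pool.Agent.Q331.DRS.mult ϑ hϑ hϑ1 δ hδ
  obtain ⟨N₁, hN₁⟩ := hmain 8
  refine ⟨c, hc, N₁ + 1, most_of h fun N hN hNN g => ?_⟩
  obtain ⟨E, hE1, hE2, hE3⟩ := hN₁ N (by omega) (fun q => ¬ (Good (max A 5) ε N g q ∧ Good (max A 5) ε N g (-q)))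
    (le_trans (le_of_eq (by congr!)) (count (le_max_right A 5) (show 1 ≤ N by omega) hδ hN g))
  refine ⟨E, hE1, hE2, fun y hy1 hy2 hyE => le_trans ?_ (hE3 y hy1 hy2 hyE)⟩
  have hmono : ∀ b : ℤ, Good (max A 5) ε N g b → Good A ε N g b := fun b hb a ha1 ha2 q hq1 hq2 =>
    hb a ha1 (ha2.trans (le_max_left _ _)) q hq1 (hq2.trans (le_max_left _ _))
  unfold exceptions
  apply Nat.cast_le.2
  apply card_le_card
  intro k hk
  simp only [mem_filter] at hk ⊢
  obtain ⟨hk1, q, hq1, hq2⟩ := hk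
  exact ⟨hk1, q, hq1, fun h3 => hq2 ⟨hmono _ h3.1, hmono _ h3.2⟩⟩

end Pool.Agent.Results.MP_d639b3_nt.LinearFactorsAtRealMultiples
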