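import Pool.Agent.Q25.TPol2

/-!
# The Liouville function at polynomials with linear factors from thin families, on all arithmetic progressions

The exponential sum bounds for the Liouville function (Davenport's theorem) and the bilinear estimate along families
of small additive energy are from the starting files (`Pool.Agent.H807R2.Dav`, `Pool.Agent.H373R2.T7`,
`Pool.Agent.TH935.LF1`).
-/

set_option autoImplicit false

namespace Pool.Agent.Results.MP_d639b3_nt.PolynomialShifts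

open Finset Polynomial
open Pool.Agent.Q25.TPol (lam)

/-- The additive energy of order `p` of the family `s 1, ..., s x`: the number of the solutions of
`s (m 1) + ... + s (m p) = s (m' 1) + ... + s (m' p)` with all `m i`, `m' i` in `{1, ..., x}`. -/
def energy (p x : ℕ) (s : ℕ → ℤ) : ℕ :=
  (((Fintype.piFinset fun _ : Fin p => Icc 1 x) ×ˢ (Fintype.piFinset fun _ : Fin p => Icc 1 x)).filter
    (fun q => ∑ i, s (q.1 i) = ∑ i, s (q.2 i))).card

/-- The family `s 1, ..., s x` is contained in `[-B N, B N]` and has nearly minimal energy of order `p`: at most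
`log ^ C N * x ^ (2 p) / N`. -/
def Thin (p B C N x : ℕ) (s : ℕ → ℤ) : Prop :=
  (∀ m ∈ Icc 1 x, |s m| ≤ B * N) ∧ (energy p x s : ℝ) * N ≤ Real.log N ^ C * (x : ℝ) ^ (2 * p)

/-- The range `N / log ^ C N ≤ x ^ d ≤ B N`, `|c| ≤ B N` for the values of a polynomial of degree `d`. -/
def Range (B C N d x : ℕ) (c : ℤ) : Prop :=
  |c| ≤ B * N ∧ (N : ℝ) ≤ Real.log N ^ C * (x : ℝ) ^ d ∧ x ^ d ≤ B * N

/-- the linear polynomial `a T + b` -/
noncomputable def L (a : ℕ) (b : ℤ) : ℤ[X] := C (a : ℤ) * X + C b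

/-- the sum of `λ(f(v))` over the integers `v` with `|v| ≤ M` and `v ≡ r` modulo `q` -/
noncomputable def S (f : ℤ[X]) (q r : ℤ) (M : ℕ) : ℤ :=
  ∑ v ∈ (Icc (-(M : ℤ)) M).filter (fun v => v ≡ r [ZMOD q]), lam (f.eval v)

open Classical in
/-- For each of at most `log ^ T N` indices `l` let `a l ≥ 1` and let `g l` be an arbitrary polynomial with integer
coefficients. Then all the `b = s 1, ..., s x` with at most `x / log ^ U N` exceptions satisfy, for all `l`,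
all the progressions with difference `q ≤ log ^ T N` and all `M ≤ B N / a l`: the sum of `λ(f(v))`,
`f = (a l T + b) g l`, over the `v` in the progression with `|v| ≤ M` is at most `N / log ^ U N` in absolute value. -/
def AlmostAll (B T U N x : ℕ) (s : ℕ → ℤ) : Prop :=
  ∀ D : ℕ, (D : ℝ) ≤ Real.log N ^ T → ∀ (a : Fin D → ℕ) (g : Fin D → ℤ[X]), (∀ l, 1 ≤ a l) →
      (((Icc 1 x).filter (fun m => ¬ ∀ l, ∀ q r : ℤ, 1 ≤ q → (q : ℝ) ≤ Real.log N ^ T → ∀ M : ℕ, a l * M ≤ B * N →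
        |(S (L (a l) (s m) * g l) q r M : ℝ)| ≤ N / Real.log N ^ U)).card : ℝ) ≤ x / Real.log N ^ U

open Classical in
/-- For each of at most `log ^ T N` indices `l` let `a l i ≥ 1`, and let `g l` be an arbitrary polynomial with integer
coefficients. Then all the tuples `m` with `1 ≤ m i ≤ x i`, with at most `(∏ i, x i) / log ^ U N` exceptions,
satisfy, for all `l`, all nonempty sets `J` of indices, all the progressions with difference `q ≤ log ^ T N` and all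
`M` with `M ≤ B N / a l i`: the sum of `λ(f(v))`, `f = g l * ∏ i ∈ J, (a l i T + s i (m i))`, over the `v` in the
progression with `|v| ≤ M` is at most `N / log ^ U N` in absolute value. -/
def AlmostAllTuples (k B T U N : ℕ) (x : Fin (k + 1) → ℕ) (s : Fin (k + 1) → ℕ → ℤ) : Prop :=
  ∀ D : ℕ, (D : ℝ) ≤ Real.log N ^ T → ∀ (a : Fin D → Fin (k + 1) → ℕ) (g : Fin D → ℤ[X]), (∀ l i, 1 ≤ a l i) →
      (((Fintype.piFinset fun i => Icc 1 (x i)).filter (fun m : Fin (k + 1) → ℕ =>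
        ¬ ∀ l, ∀ J : Finset (Fin (k + 1)), J.Nonempty → ∀ q r : ℤ, 1 ≤ q → (q : ℝ) ≤ Real.log N ^ T →
          ∀ M : ℕ, (∀ i, a l i * M ≤ B * N) →
          |(S (g l * ∏ i ∈ J, L (a l i) (s i (m i))) q r M : ℝ)| ≤ N / Real.log N ^ U)).card : ℝ) ≤
            (∏ i, (x i : ℝ)) / Real.log N ^ U

lemma L_eval (a : ℕ) (b v : ℤ) : (L a b).eval v = (a : ℤ) * v + b := by
  unfold L
  simp

/-- the sum as a sum with weights -/
lemma S_eq (f : ℤ[X]) (q r : ℤ) (M : ℕ) :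
    |(S f q r M : ℝ)| = ‖∑ v ∈ Icc (-(M : ℤ)) M, (if v ≡ r [ZMOD q] then (1 : ℂ) else 0) * (lam (f.eval v) : ℂ)‖ := by
  have e : ∑ v ∈ Icc (-(M : ℤ)) M, (if v ≡ r [ZMOD q] then (1 : ℂ) else 0) * (lam (f.eval v) : ℂ) = ((S f q r M : ℤ) : ℂ) := by
    unfold S
    rw [sum_filter]
    push_cast
    apply sum_congr rfl
    intro v _
    split_ifs <;> simp
  rw [e, ← Complex.ofReal_intCast, Complex.norm_real, Real.norm_eq_abs]

/-- the moduli and the residues -/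
lemma index_card (T D N : ℕ) (hlog : 3 ≤ Real.log N) (hD : (D : ℝ) ≤ Real.log N ^ T) :
    ((Fintype.card (Fin D × Fin (⌊Real.log N ^ T⌋₊ + 1) × Fin (⌊Real.log N ^ T⌋₊ + 1)) : ℕ) : ℝ) ≤
      Real.log N ^ (3 * T + 2) := by
  have h0 : 0 < Real.log (N : ℝ) := by linarith
  have h1 : ((⌊Real.log (N : ℝ) ^ T⌋₊ : ℕ) : ℝ) ≤ Real.log N ^ T := Nat.floor_le (by positivity)
  have h2 : 1 ≤ Real.log (N : ℝ) ^ T := one_le_pow₀ (by linarith)
  simp only [Fintype.card_prod, Fintype.card_fin]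
  push_cast
  have h3 : ((⌊Real.log (N : ℝ) ^ T⌋₊ : ℕ) : ℝ) + 1 ≤ Real.log N ^ (T + 1) := by
    rw [pow_succ]
    nlinarith
  calc (D : ℝ) * (((⌊Real.log (N : ℝ) ^ T⌋₊ : ℕ) + 1) * ((⌊Real.log (N : ℝ) ^ T⌋₊ : ℕ) + 1))
      ≤ Real.log N ^ T * (Real.log N ^ (T + 1) * Real.log N ^ (T + 1)) := by gcongr
    _ = _ := by rw [← pow_add, ← pow_add]; congr 1; ring

lemma log_mono (T T' N : ℕ) (hlog : 3 ≤ Real.log N) (h : T ≤ T') : Real.log (N : ℝ) ^ T ≤ Real.log N ^ T' :=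
  pow_le_pow_right₀ (by linarith) h

/-- a residue in the right range -/
lemma residue {T N : ℕ} (q r : ℤ) (hq : 1 ≤ q) (hqN : (q : ℝ) ≤ Real.log N ^ T) :
    ∃ q' r' : Fin (⌊Real.log (N : ℝ) ^ T⌋₊ + 1), ∀ v : ℤ, v ≡ r [ZMOD q] ↔ v ≡ ((r' : ℕ) : ℤ) [ZMOD ((q' : ℕ) : ℤ)] := by
  obtain ⟨n, rfl⟩ : ∃ n : ℕ, q = n := ⟨q.toNat, (Int.toNat_of_nonneg (by omega)).symm⟩
  have h1 : n ≤ ⌊Real.log (N : ℝ) ^ T⌋₊ := Nat.le_floor (by exact_mod_cast hqN)
  obtain ⟨t, ht⟩ : ∃ t : ℕ, (t : ℤ) = r % n := ⟨(r % n).toNat, Int.toNat_of_nonneg (Int.emod_nonneg _ (by omega))⟩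
  have h2 : (t : ℤ) < n := by
    rw [ht]
    exact Int.emod_lt_of_pos _ (by omega)
  refine ⟨⟨n, by omega⟩, ⟨t, by omega⟩, fun v => ?_⟩
  simp only [ht]
  constructor
  · intro h
    exact h.trans (Int.mod_modEq r n).symm
  · intro h
    exact h.trans (Int.mod_modEq r n)

/-- Let `k`, `B`, `C`, `T` and `U` be fixed. For all large `N`:

* Almost all the members `b` of a family of nearly minimal energy of any fixed order `p` have the property `AlmostAll`.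
* So do almost all the `b = c + P m`, `m ≤ x`, for a non-constant polynomial `P` of degree `d`, where
  `N / log ^ C N ≤ x ^ d ≤ B N` and `|c| ≤ B N`.
* Almost all the tuples from `k + 1` families of nearly minimal energy of any fixed order `p`, and almost all the tuples
  `c i + P i (m i)`, `m i ≤ x i`, with arbitrary non-constant polynomials `P i`, have the property
  `AlmostAllTuples`. -/
theorem result (k B C T U : ℕ) :
    (∀ p : ℕ, ∃ N₀ : ℕ, ∀ N : ℕ, N₀ ≤ N → ∀ (x : ℕ) (s : ℕ → ℤ), Thin p B C N x s → AlmostAll B T U N x s) ∧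
    (∀ P : ℤ[X], 1 ≤ P.natDegree → ∃ N₀ : ℕ, ∀ N : ℕ, N₀ ≤ N → ∀ (c : ℤ) (x : ℕ), Range B C N P.natDegree x c →
      AlmostAll B T U N x (fun m => c + P.eval (m : ℤ))) ∧
    (∀ p : ℕ, ∃ N₀ : ℕ, ∀ N : ℕ, N₀ ≤ N → ∀ (x : Fin (k + 1) → ℕ) (s : Fin (k + 1) → ℕ → ℤ),
      (∀ i, Thin p B C N (x i) (s i)) → AlmostAllTuples k B T U N x s) ∧
    (∀ P : Fin (k + 1) → ℤ[X], (∀ i, 1 ≤ (P i).natDegree) → ∃ N₀ : ℕ, ∀ N : ℕ, N₀ ≤ N →
      ∀ (c : Fin (k + 1) → ℤ) (x : Fin (k + 1) → ℕ), (∀ i, Range B C N (P i).natDegree (x i) (c i)) →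
        AlmostAllTuples k B T U N x (fun i m => c i + (P i).eval (m : ℤ))) := by
  classical
  have hf := Pool.Agent.W93.LM.nice_liR.1
  have hs := Pool.Agent.W93.LM.nice_liR.2.1
  have hev : ∀ z, ‖Pool.Agent.Q25.TFam.even Pool.Agent.H373R2.T7.liR z‖ ≤ 1 := fun z => by
    rw [← Pool.Agent.Q25.TPol.lam_eq]
    exact Pool.Agent.Q25.TPol.lam_norm z
  obtain ⟨n0, h0⟩ := Pool.Agent.Q25.TPol.ev_small T U
  obtain ⟨n1, h1⟩ := Pool.Agent.Q25.TPol.full_two Pool.Agent.H373R2.T7.liR hev B (3 * T + 2) U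
  have hwt : ∀ N : ℕ, n0 ≤ N → ∀ (g : ℤ[X]) (q r v : ℤ),
      ‖(if v ≡ r [ZMOD q] then (1 : ℂ) else 0) * (lam (g.eval v) : ℂ)‖ ≤ Real.log N ^ (3 * T + 2) := by
    intro N hN g q r v
    have h3 := (h0 N hN).1
    rw [norm_mul]
    calc _ ≤ (1 : ℝ) * 1 := mul_le_mul (by split_ifs <;> simp) (Pool.Agent.Q25.TPol.lam_norm _) (norm_nonneg _) (by norm_num)
      _ ≤ _ := by rw [mul_one]; exact one_le_pow₀ (by linarith)
  have key : ∀ N : ℕ, n0 + n1 ≤ N → ∀ x : ℕ, ∀ s : ℕ → ℤ,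
      Pool.Agent.Q25.TFam.TwoSided Pool.Agent.H373R2.T7.liR B (3 * T + 2) (U + 1) N x s → AlmostAll B T U N x s := by
    intro N hN x s hs D hD a g ha
    have hlog := (h0 N (by omega)).1
    obtain ⟨e⟩ : Nonempty ((Fin D × Fin (⌊Real.log (N : ℝ) ^ T⌋₊ + 1) × Fin (⌊Real.log (N : ℝ) ^ T⌋₊ + 1)) ≃
      Fin (Fintype.card (Fin D × Fin (⌊Real.log (N : ℝ) ^ T⌋₊ + 1) × Fin (⌊Real.log (N : ℝ) ^ T⌋₊ + 1)))) :=
      ⟨Fintype.equivFin _⟩
    refine h1 N (by omega) x s hs _ (index_card T D N hlog hD) (fun j => a (e.symm j).1)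
      (fun j v => (if v ≡ (((e.symm j).2.2 : ℕ) : ℤ) [ZMOD (((e.symm j).2.1 : ℕ) : ℤ)] then (1 : ℂ) else 0) *
        (lam ((g (e.symm j).1).eval v) : ℂ)) (fun j => ha _) (fun j v => hwt N (by omega) _ _ _ _) _
      (filter_subset _ _) ?_
    intro m hm
    rw [mem_filter] at hm
    obtain ⟨_, hm2⟩ := hm
    push Not at hm2
    obtain ⟨l, q, r, hq, hqN, M, hM, hb⟩ := hm2
    obtain ⟨q', r', hqr⟩ := residue q r hq hqN
    refine ⟨e (l, q', r'), M, by rw [e.symm_apply_apply]; exact hM, lt_of_lt_of_le hb (le_of_eq ?_)⟩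
    rw [S_eq]
    congr 1
    apply sum_congr rfl
    intro v _
    rw [e.symm_apply_apply, eval_mul, Pool.Agent.Q25.TPol.lam_mul, L_eval, ← Pool.Agent.Q25.TPol.lam_eq]
    simp only [hqr v]
    push_cast
    ring
  obtain ⟨n2, h2⟩ := Pool.Agent.Q25.TPol.full_tuples Pool.Agent.H373R2.T7.liR hev k B (3 * T + 2) U
  have key2 : ∀ N : ℕ, n0 + n2 ≤ N → ∀ (x : Fin (k + 1) → ℕ) (s : Fin (k + 1) → ℕ → ℤ),
      (∀ i, Pool.Agent.Q25.TFam.TwoSided Pool.Agent.H373R2.T7.liR B (3 * T + 2) (U + 2) N (x i) (s i)) →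
        AlmostAllTuples k B T U N x s := by
    intro N hN x s hall D hD a g ha
    have hlog := (h0 N (by omega)).1
    obtain ⟨e⟩ : Nonempty ((Fin D × Fin (⌊Real.log (N : ℝ) ^ T⌋₊ + 1) × Fin (⌊Real.log (N : ℝ) ^ T⌋₊ + 1)) ≃
      Fin (Fintype.card (Fin D × Fin (⌊Real.log (N : ℝ) ^ T⌋₊ + 1) × Fin (⌊Real.log (N : ℝ) ^ T⌋₊ + 1)))) :=
      ⟨Fintype.equivFin _⟩
    have h4 := h2 N (by omega) x s hall _ (index_card T D N hlog hD) (fun j => a (e.symm j).1)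
      (fun j v => (if v ≡ (((e.symm j).2.2 : ℕ) : ℤ) [ZMOD (((e.symm j).2.1 : ℕ) : ℤ)] then (1 : ℂ) else 0) *
        (lam ((g (e.symm j).1).eval v) : ℂ)) (fun j i => ha _ i) (fun j v => hwt N (by omega) _ _ _ _)
      (fun m : Fin (k + 1) → ℕ =>
        ¬ ∀ l, ∀ J : Finset (Fin (k + 1)), J.Nonempty → ∀ q r : ℤ, 1 ≤ q → (q : ℝ) ≤ Real.log N ^ T →
          ∀ M : ℕ, (∀ i, a l i * M ≤ B * N) →
          |(S (g l * ∏ i ∈ J, L (a l i) (s i (m i))) q r M : ℝ)| ≤ N / Real.log N ^ U) ?_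
    · convert h4
    intro m hm
    push Not at hm
    obtain ⟨l, J, hJ, q, r, hq, hqN, M, hM, hb⟩ := hm
    obtain ⟨q', r', hqr⟩ := residue q r hq hqN
    refine ⟨e (l, q', r'), J, hJ, M, by rw [e.symm_apply_apply]; exact hM, lt_of_lt_of_le hb (le_of_eq ?_)⟩
    rw [S_eq]
    congr 1
    apply sum_congr rfl
    intro v _
    rw [e.symm_apply_apply, eval_mul, eval_prod, Pool.Agent.Q25.TPol.lam_mul, Pool.Agent.Q25.TPol.lam_prod]
    simp only [hqr v]
    push_cast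
    rw [mul_assoc]
    congr 2
    apply prod_congr rfl
    intro i _
    rw [L_eval, Pool.Agent.Q25.TPol.lam_eq]
  refine ⟨?_, ?_, ?_, ?_⟩
  · intro p
    obtain ⟨n3, h3⟩ := Pool.Agent.Q25.TFam.two_fam hf hs p B C (3 * T + 2) (U + 1)
    exact ⟨n0 + n1 + n3, fun N hN x s h => key N (by omega) x s (h3 N (by omega) x s h.1 h.2)⟩
  · intro P hP
    obtain ⟨n3, h3⟩ := Pool.Agent.Q25.TFam.two_poly hf hs P hP B C (3 * T + 2) (U + 1)
    exact ⟨n0 + n1 + n3, fun N hN c x h => key N (by omega) x _ (h3 N (by omega) c h.1 x h.2.1 h.2.2)⟩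
  · intro p
    obtain ⟨n3, h3⟩ := Pool.Agent.Q25.TFam.two_fam hf hs p B C (3 * T + 2) (U + 2)
    exact ⟨n0 + n2 + n3, fun N hN x s h =>
      key2 N (by omega) x s (fun i => h3 N (by omega) (x i) (s i) (h i).1 (h i).2)⟩
  · intro P hP
    choose n3 h3 using fun i => Pool.Agent.Q25.TFam.two_poly hf hs (P i) (hP i) B C (3 * T + 2) (U + 2)
    refine ⟨∑ i, n3 i + n2 + n0, fun N hN c x h => key2 N (by omega) x _ (fun i => ?_)⟩
    refine h3 i N ?_ (c i) (h i).1 (x i) (h i).2.1 (h i).2.2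
    have : n3 i ≤ ∑ i, n3 i := single_le_sum (f := n3) (fun _ _ => Nat.zero_le _) (mem_univ i)
    omega

end Pool.Agent.Results.MP_d639b3_nt.PolynomialShifts
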